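import Mathlib

/-!
# Identities for `∑ C(m,k) W_k y^k` and for `∑ C(m,k)^2 z^(2k)`
-/

set_option autoImplicit false

namespace Pool.Agent.T2H21.PL

open Finset Polynomial

/-- `a! b! / (a + b + 1)!` -/
def Bt (a b : ℕ) : ℚ := (a.factorial : ℚ) * b.factorial / (a + b + 1).factorial

theorem Bt_pos (a b : ℕ) : 0 < Bt a b := by
  unfold Bt
  positivity

theorem Bt_comm (a b : ℕ) : Bt a b = Bt b a := by
  unfold Bt
  rw [mul_comm (a.factorial : ℚ), show a + b + 1 = b + a + 1 by ring]

theorem Bt_succ (a b : ℕ) : Bt (a + 1) b * (a + b + 2) = Bt a b * (a + 1) := by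
  unfold Bt
  have h : ((a + b + 1).factorial : ℚ) ≠ 0 := by positivity
  have e1 : ((a + 1 + b + 1).factorial : ℚ) = (a + b + 2) * (a + b + 1).factorial := by
    rw [show a + 1 + b + 1 = (a + b + 1) + 1 by ring, Nat.factorial_succ]
    push_cast
    ring
  rw [e1, Nat.factorial_succ a]
  push_cast
  have h2 : ((a : ℚ) + b + 2) ≠ 0 := by positivity
  field_simp

theorem Bt_pascal (a b : ℕ) : Bt (a + 1) b - Bt a b = -Bt a (b + 1) := by
  have h1 := Bt_succ a b
  have h2 := Bt_succ b a
  rw [Bt_comm (b + 1) a, Bt_comm b a] at h2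
  have h3 : ((a : ℚ) + b + 2) ≠ 0 := by positivity
  have h4 : (Bt (a + 1) b - Bt a b + Bt a (b + 1)) * (a + b + 2) = 0 := by
    linear_combination h1 + h2
  rcases mul_eq_zero.1 h4 with h | h
  · linarith
  · exact absurd h h3

theorem Bt_transform (a j b : ℕ) :
    ∑ k ∈ range (j + 1), (-1 : ℚ) ^ k * (j.choose k) * Bt (a + k) b = Bt a (b + j) := by
  induction j generalizing b with
  | zero => simp
  | succ j ih =>
    have h := ih (b + 1)
    rw [show b + (j + 1) = b + 1 + j by ring, ← h]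
    rw [Finset.sum_range_succ']
    simp only [Nat.choose_succ_succ, Nat.cast_add, mul_add, add_mul, Finset.sum_add_distrib]
    have e1 : ∀ k, Bt (a + k) (b + 1) = Bt (a + k) b - Bt (a + k + 1) b := by
      intro k
      have := Bt_pascal (a + k) b
      linarith
    simp only [e1, mul_sub, Finset.sum_sub_distrib]
    have e2 : ∑ x ∈ range (j + 1), (-1 : ℚ) ^ (x + 1) * (j.choose (x + 1)) * Bt (a + (x + 1)) b +
        (-1) ^ 0 * ((j + 1).choose 0 : ℕ) * Bt (a + 0) b =
        ∑ x ∈ range (j + 1), (-1 : ℚ) ^ x * (j.choose x) * Bt (a + x) b := by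
      rw [Finset.sum_range_succ _ j, Finset.sum_range_succ' _ j]
      simp
    have e3 : ∑ x ∈ range (j + 1), (-1 : ℚ) ^ (x + 1) * (j.choose x) * Bt (a + (x + 1)) b =
        -∑ x ∈ range (j + 1), (-1 : ℚ) ^ x * (j.choose x) * Bt (a + x + 1) b := by
      rw [← Finset.sum_neg_distrib]
      refine Finset.sum_congr rfl fun x _ => ?_
      rw [show a + (x + 1) = a + x + 1 by ring]
      ring
    rw [e3]
    linarith [e2]

/-- `∏_{j<k} (m+1+j) ∏_{k≤j<m} (2m+2+j)` -/
def W (m k : ℕ) : ℕ := (∏ j ∈ range k, (m + 1 + j)) * ∏ j ∈ Ico k m, (2 * m + 2 + j)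

theorem W_succ (m k : ℕ) (h : k < m) : W m (k + 1) * (2 * m + 2 + k) = W m k * (m + 1 + k) := by
  unfold W
  rw [Finset.prod_range_succ, ← Finset.prod_Ioo_mul_eq_prod_Ico h]
  have : Ioo k m = Ico (k + 1) m := by
    ext x
    simp
  rw [this]
  ring

theorem W_Bt (m k : ℕ) (h : k ≤ m) : (W m k : ℚ) * Bt m m = W m 0 * Bt (m + k) m := by
  induction k with
  | zero => simp
  | succ k ih =>
    have h1 := ih (by omega)
    have h2 : (W m (k + 1) : ℚ) * (2 * m + 2 + k) = W m k * (m + 1 + k) := by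
      exact_mod_cast W_succ m k (by omega)
    have h3 := Bt_succ (m + k) m
    push_cast at h3
    have h4 : ((2 : ℚ) * m + 2 + k) ≠ 0 := by positivity
    have h5 : ((W m (k + 1) : ℚ) * Bt m m - W m 0 * Bt (m + (k + 1)) m) * (2 * m + 2 + k) = 0 := by
      rw [show m + (k + 1) = m + k + 1 by ring]
      linear_combination (Bt m m) * h2 + (m + 1 + k : ℚ) * h1 - (W m 0 : ℚ) * h3
    rcases mul_eq_zero.1 h5 with h | h
    · linarith
    · exact absurd h h4

theorem W_transform (m j : ℕ) (h : j ≤ m) :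
    ∑ k ∈ range (j + 1), (-1 : ℤ) ^ k * (j.choose k) * W m k = W m j := by
  have h0 : (∑ k ∈ range (j + 1), (-1 : ℚ) ^ k * (j.choose k) * W m k) = W m j := by
    have hB : Bt m m ≠ 0 := (Bt_pos m m).ne'
    apply mul_right_cancel₀ hB
    rw [Finset.sum_mul, W_Bt m j h, Bt_comm (m + j) m, ← Bt_transform m j m, Finset.mul_sum]
    refine Finset.sum_congr rfl fun k hk => ?_
    rw [Finset.mem_range] at hk
    have := W_Bt m k (by omega)
    linear_combination ((-1 : ℚ) ^ k * (j.choose k)) * this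
  exact_mod_cast h0

variable {R : Type*} [CommRing R]

/-- `∑_k C(m,k) W_k y^k` -/
def GG (m : ℕ) (y : R) : R := ∑ k ∈ range (m + 1), (m.choose k : R) * (W m k : R) * y ^ k

/-- the linear functional `X^k ↦ W_k` for `k ≤ m` -/
def LL (m : ℕ) (q : R[X]) : R := ∑ k ∈ range (m + 1), q.coeff k * (W m k : R)

theorem LL_add (m : ℕ) (a b : R[X]) : LL m (a + b) = LL m a + LL m b := by
  unfold LL
  simp [add_mul, Finset.sum_add_distrib]

theorem LL_zero (m : ℕ) : LL m (0 : R[X]) = 0 := by
  unfold LL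
  simp

theorem LL_sum (m : ℕ) {ι : Type*} (s : Finset ι) (f : ι → R[X]) :
    LL m (∑ i ∈ s, f i) = ∑ i ∈ s, LL m (f i) := by
  classical
  induction s using Finset.induction_on with
  | empty => simp [LL_zero]
  | insert a s ha ih => rw [Finset.sum_insert ha, Finset.sum_insert ha, LL_add, ih]

theorem LL_C_mul (m : ℕ) (a : R) (q : R[X]) : LL m (C a * q) = a * LL m q := by
  unfold LL
  rw [Finset.mul_sum]
  refine Finset.sum_congr rfl fun k _ => ?_
  rw [Polynomial.coeff_C_mul]
  ring

theorem LL_X_pow (m k : ℕ) (h : k ≤ m) : LL m ((X : R[X]) ^ k) = W m k := by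
  unfold LL
  simp only [Polynomial.coeff_X_pow]
  simp only [ite_mul, one_mul, zero_mul]
  rw [Finset.sum_ite_eq', if_pos (Finset.mem_range.2 (by omega))]

theorem LL_one_sub_pow (m j : ℕ) (h : j ≤ m) : LL m ((1 - X : R[X]) ^ j) = W m j := by
  have e : (1 - X : R[X]) ^ j = ∑ k ∈ range (j + 1), C ((-1 : R) ^ k * (j.choose k : R)) * X ^ k := by
    rw [sub_eq_neg_add, add_pow]
    refine Finset.sum_congr rfl fun k _ => ?_
    rw [neg_pow, one_pow]
    simp only [map_mul, map_pow, map_neg, map_one, map_natCast]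
    ring
  rw [e, LL_sum]
  have h1 := congrArg (Int.cast : ℤ → R) (W_transform m j h)
  push_cast at h1
  rw [← h1]
  refine Finset.sum_congr rfl fun k hk => ?_
  rw [Finset.mem_range] at hk
  rw [LL_C_mul, LL_X_pow m k (by omega)]

/-- the Pfaff transformation -/
theorem GG_neg (m : ℕ) (z : R) :
    GG m (-z) = ∑ k ∈ range (m + 1), (m.choose k : R) * (W m k : R) * (z ^ k * (1 - z) ^ (m - k)) := by
  have e1 : LL m ((1 - C z * X : R[X]) ^ m) = GG m (-z) := by
    rw [show (1 - C z * X : R[X]) = C (-z) * X + 1 by rw [map_neg]; ring, add_pow, LL_sum]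
    unfold GG
    refine Finset.sum_congr rfl fun k hk => ?_
    rw [Finset.mem_range] at hk
    rw [show (C (-z) * X) ^ k * 1 ^ (m - k) * (m.choose k : R[X]) =
      C ((-z) ^ k * (m.choose k : R)) * X ^ k by
        simp only [map_mul, map_pow, map_natCast]; ring]
    rw [LL_C_mul, LL_X_pow m k (by omega)]
    ring
  have e2 : LL m ((1 - C z * X : R[X]) ^ m) =
      ∑ k ∈ range (m + 1), (m.choose k : R) * (W m k : R) * (z ^ k * (1 - z) ^ (m - k)) := by
    rw [show (1 - C z * X : R[X]) = C z * (1 - X) + C (1 - z) by rw [map_sub, map_one]; ring,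
      add_pow, LL_sum]
    refine Finset.sum_congr rfl fun k hk => ?_
    rw [Finset.mem_range] at hk
    rw [show (C z * (1 - X)) ^ k * (C (1 - z)) ^ (m - k) * (m.choose k : R[X]) =
      C (z ^ k * (1 - z) ^ (m - k) * (m.choose k : R)) * (1 - X) ^ k by
        simp only [map_mul, map_pow, map_natCast, mul_pow]; ring]
    rw [LL_C_mul, LL_one_sub_pow m k (by omega)]
    ring
  rw [← e1, e2]

/-- the consequence for a pair `y, z` with `z = (1 - z) y` -/
theorem GG_pair (m : ℕ) (y z : R) (h : z = (1 - z) * y) : GG m (-z) = (1 - z) ^ m * GG m y := by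
  rw [GG_neg]
  unfold GG
  rw [Finset.mul_sum]
  refine Finset.sum_congr rfl fun k hk => ?_
  rw [Finset.mem_range] at hk
  have h1 : z ^ k * (1 - z) ^ (m - k) = (1 - z) ^ m * y ^ k := by
    calc z ^ k * (1 - z) ^ (m - k) = ((1 - z) * y) ^ k * (1 - z) ^ (m - k) := by rw [← h]
      _ = ((1 - z) ^ k * (1 - z) ^ (m - k)) * y ^ k := by rw [mul_pow]; ring
      _ = (1 - z) ^ m * y ^ k := by rw [← pow_add, show k + (m - k) = m by omega]
  rw [h1]
  ring

/-- the Landen transformation -/
theorem landen (m : ℕ) (z : R) :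
    ∑ j ∈ range (m + 1), (m.choose j : R) * ((2 * j).choose j : R) * (-z) ^ j *
      ((1 + z) ^ 2) ^ (m - j) = ∑ j ∈ range (m + 1), ((m.choose j : R)) ^ 2 * (z ^ 2) ^ j := by
  have key : (C (-z) * (X + 1) ^ 2 + C ((1 + z) ^ 2) * X : R[X]) ^ m =
      ((X + C (-z)) * (C (-z) * X + 1)) ^ m := by
    congr 1
    simp only [map_neg, map_pow, map_add, map_one]
    ring
  have h := congrArg (fun q : R[X] => q.coeff m) key
  beta_reduce at h
  have e1 : ((C (-z) * (X + 1) ^ 2 + C ((1 + z) ^ 2) * X : R[X]) ^ m).coeff m =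
      ∑ j ∈ range (m + 1), (m.choose j : R) * ((2 * j).choose j : R) * (-z) ^ j *
      ((1 + z) ^ 2) ^ (m - j) := by
    rw [add_pow, Polynomial.finsetSum_coeff]
    refine Finset.sum_congr rfl fun j hj => ?_
    rw [Finset.mem_range] at hj
    rw [show (C (-z) * (X + 1) ^ 2) ^ j * (C ((1 + z) ^ 2) * X) ^ (m - j) * (m.choose j : R[X]) =
      C ((-z) ^ j * ((1 + z) ^ 2) ^ (m - j) * (m.choose j : R)) *
        (X ^ (m - j) * (X + 1) ^ (2 * j)) by
        simp only [map_mul, map_pow, map_natCast, mul_pow, ← pow_mul]; ring]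
    rw [Polynomial.coeff_C_mul, Polynomial.coeff_X_pow_mul', if_pos (by omega),
      show m - (m - j) = j by omega, Polynomial.coeff_X_add_one_pow]
    ring
  have e2 : (((X + C (-z)) * (C (-z) * X + 1) : R[X]) ^ m).coeff m =
      ∑ j ∈ range (m + 1), ((m.choose j : R)) ^ 2 * (z ^ 2) ^ j := by
    rw [mul_pow, Polynomial.coeff_mul, Finset.Nat.sum_antidiagonal_eq_sum_range_succ_mk]
    rw [← Finset.sum_range_reflect]
    refine Finset.sum_congr rfl fun j hj => ?_
    rw [Finset.mem_range] at hj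
    have hj' : m + 1 - 1 - j = m - j := by omega
    rw [hj', show m - (m - j) = j by omega]
    rw [Polynomial.coeff_X_add_C_pow]
    have e3 : ((C (-z) * X + 1 : R[X]) ^ m).coeff j = (-z) ^ j * (m.choose j : R) := by
      rw [add_pow, Polynomial.finsetSum_coeff]
      rw [Finset.sum_eq_single j]
      · rw [show (C (-z) * X) ^ j * 1 ^ (m - j) * (m.choose j : R[X]) =
          C ((-z) ^ j * (m.choose j : R)) * X ^ j by
            simp only [map_mul, map_pow, map_natCast]; ring]
        rw [Polynomial.coeff_C_mul, Polynomial.coeff_X_pow, if_pos rfl, mul_one]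
      · intro b _ hb
        rw [show (C (-z) * X) ^ b * 1 ^ (m - b) * (m.choose b : R[X]) =
          C ((-z) ^ b * (m.choose b : R)) * X ^ b by
            simp only [map_mul, map_pow, map_natCast]; ring]
        rw [Polynomial.coeff_C_mul, Polynomial.coeff_X_pow, if_neg (by omega), mul_zero]
      · intro hb
        rw [Finset.mem_range] at hb
        omega
    rw [e3, show m - (m - j) = j by omega, Nat.choose_symm (by omega)]
    rw [show (z ^ 2) ^ j = (-z) ^ j * (-z) ^ j by rw [← mul_pow]; congr 1; ring]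
    ring
  rw [← e1, h, e2]

end Pool.Agent.T2H21.PL
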