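import Pool.Agent.T2H21.PL.A

/-!
# The congruence modulo `p` and modulo `p ^ 2`
-/

set_option autoImplicit false

namespace Pool.Agent.T2H21.PL

open Finset Polynomial

section ModP

variable {p m : ℕ} [Fact p.Prime]

theorem natCast_ne_zero_of_lt {k : ℕ} (h0 : 0 < k) (h : k < p) : (k : ZMod p) ≠ 0 := by
  intro h1
  rw [ZMod.natCast_eq_zero_iff] at h1
  exact absurd (Nat.le_of_dvd h0 h1) (by omega)

theorem cast_eq (hm : p = 2 * m + 1) : (2 * (m : ZMod p) + 1) = 0 := by
  have : ((2 * m + 1 : ℕ) : ZMod p) = 0 := by rw [← hm]; exact ZMod.natCast_self p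
  push_cast at this
  exact this

theorem choose_add_mod (hm : p = 2 * m + 1) (k : ℕ) (hk : k ≤ m) :
    (-1 : ZMod p) ^ k * ((m + k).choose k : ZMod p) = (m.choose k : ZMod p) := by
  induction k with
  | zero => simp
  | succ k ih =>
    have h := ih (by omega)
    have h0 := cast_eq (p := p) hm
    have h1 : ((m + (k + 1)).choose (k + 1) : ZMod p) * (k + 1) =
        (m + k + 1) * ((m + k).choose k : ZMod p) := by
      have := Nat.add_one_mul_choose_eq (m + k) k
      have h2 := congrArg (Nat.cast : ℕ → ZMod p) this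
      push_cast at h2
      rw [show m + (k + 1) = m + k + 1 from rfl, ← h2]
    have h2 : (m.choose (k + 1) : ZMod p) * (k + 1) = (m.choose k : ZMod p) * (m - k) := by
      have := Nat.choose_succ_right_eq m k
      have h2 := congrArg (Nat.cast : ℕ → ZMod p) this
      push_cast [Nat.cast_sub (show k ≤ m by omega)] at h2
      exact h2
    have h3 : ((k : ZMod p) + 1) ≠ 0 := by
      have := natCast_ne_zero_of_lt (p := p) (k := k + 1) (by omega) (by omega)
      exact_mod_cast this
    apply mul_right_cancel₀ h3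
    rw [h2]
    linear_combination (-1 : ZMod p) ^ (k + 1) * h1 - (m + k + 1) * h - (m.choose k : ZMod p) * h0

theorem central_mod (hm : p = 2 * m + 1) (k : ℕ) (hk : k ≤ m) :
    ((2 * k).choose k : ZMod p) = (-4) ^ k * (m.choose k : ZMod p) := by
  induction k with
  | zero => simp
  | succ k ih =>
    have h := ih (by omega)
    have h0 := cast_eq (p := p) hm
    have h1 : ((k : ZMod p) + 1) * ((2 * (k + 1)).choose (k + 1) : ZMod p) =
        2 * (2 * k + 1) * ((2 * k).choose k : ZMod p) := by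
      have := Nat.succ_mul_centralBinom_succ k
      rw [Nat.centralBinom, Nat.centralBinom] at this
      have h2 := congrArg (Nat.cast : ℕ → ZMod p) this
      push_cast at h2
      exact h2
    have h2 : (m.choose (k + 1) : ZMod p) * (k + 1) = (m.choose k : ZMod p) * (m - k) := by
      have := Nat.choose_succ_right_eq m k
      have h2 := congrArg (Nat.cast : ℕ → ZMod p) this
      push_cast [Nat.cast_sub (show k ≤ m by omega)] at h2
      exact h2
    have h3 : ((k : ZMod p) + 1) ≠ 0 := by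
      have := natCast_ne_zero_of_lt (p := p) (k := k + 1) (by omega) (by omega)
      exact_mod_cast this
    apply mul_left_cancel₀ h3
    rw [h1, h, pow_succ]
    linear_combination (-(-4) ^ k * (-4) : ZMod p) * h2 + 2 * (-4) ^ k * (m.choose k : ZMod p) * h0

theorem W_mod (hm : p = 2 * m + 1) (k : ℕ) (hk : k ≤ m) :
    (W m k : ZMod p) = (m.factorial : ZMod p) * ((m + k).choose k : ZMod p) := by
  have h0 := cast_eq (p := p) hm
  induction k with
  | zero =>
    unfold W
    simp only [Finset.range_zero, Finset.prod_empty, one_mul, Nat.Ico_zero_eq_range, add_zero,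
      Nat.choose_zero_right, Nat.cast_one, mul_one]
    push_cast
    rw [← Finset.prod_range_add_one_eq_factorial]
    push_cast
    refine Finset.prod_congr rfl fun j _ => ?_
    linear_combination h0
  | succ k ih =>
    have h := ih (by omega)
    have h1 : ((m + (k + 1)).choose (k + 1) : ZMod p) * (k + 1) =
        (m + k + 1) * ((m + k).choose k : ZMod p) := by
      have := Nat.add_one_mul_choose_eq (m + k) k
      have h2 := congrArg (Nat.cast : ℕ → ZMod p) this
      push_cast at h2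
      rw [show m + (k + 1) = m + k + 1 from rfl, ← h2]
    have h2 : (W m (k + 1) : ZMod p) * (2 * m + 2 + k) = W m k * (m + 1 + k) := by
      have := congrArg (Nat.cast : ℕ → ZMod p) (W_succ m k (by omega))
      push_cast at this
      exact this
    have h3 : ((k : ZMod p) + 1) ≠ 0 := by
      have := natCast_ne_zero_of_lt (p := p) (k := k + 1) (by omega) (by omega)
      exact_mod_cast this
    apply mul_right_cancel₀ h3
    linear_combination h2 + (m + 1 + k : ZMod p) * h - (m.factorial : ZMod p) * h1 -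
      (W m (k + 1) : ZMod p) * h0

/-- `∑_k C(m,k)^2 t^k` -/
def AA (m : ℕ) (t : ZMod p) : ZMod p := ∑ k ∈ range (m + 1), ((m.choose k : ZMod p)) ^ 2 * t ^ k

theorem GG_mod (hm : p = 2 * m + 1) (y : ZMod p) :
    GG m y = (m.factorial : ZMod p) * AA m (-y) := by
  unfold GG AA
  rw [Finset.mul_sum]
  refine Finset.sum_congr rfl fun k hk => ?_
  rw [Finset.mem_range] at hk
  rw [W_mod hm k (by omega)]
  have h := choose_add_mod (p := p) hm k (by omega)
  have h2 : ((m + k).choose k : ZMod p) = (-1) ^ k * (m.choose k : ZMod p) := by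
    rw [← h, ← mul_assoc, ← mul_pow]
    simp
  rw [h2, neg_pow y k]
  ring

theorem AA_symm (hm : p = 2 * m + 1) (t : ZMod p) : AA m t = (-1) ^ m * AA m (1 - t) := by
  have h : ∀ x : ZMod p, aeval x (shiftedLegendre m) = AA m x := by
    intro x
    unfold AA shiftedLegendre
    rw [map_sum]
    refine Finset.sum_congr rfl fun k hk => ?_
    rw [Finset.mem_range] at hk
    simp only [map_mul, map_pow, aeval_X, aeval_C]
    rw [← choose_add_mod (p := p) hm k (by omega)]
    have e : (m + k).choose m = (m + k).choose k := by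
      rw [Nat.choose_symm_add]
    rw [e]
    simp only [algebraMap_int_eq, eq_intCast]
    push_cast
    have h2 := choose_add_mod (p := p) hm k (by omega)
    rw [← h2]
    ring
  rw [← h, ← h]
  exact shiftedLegendre_eval_symm m t

theorem AA_zero (hm : p = 2 * m + 1) (hodd : m % 2 = 1) (s : ZMod p) (hs : s ^ 2 = 2) :
    AA m (2 * (s - 1)) = 0 := by
  have hp2 : (2 : ZMod p) ≠ 0 := by
    have := natCast_ne_zero_of_lt (p := p) (k := 2) (by omega)
      (by have := (Fact.out : p.Prime).two_le; omega)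
    exact_mod_cast this
  have hs0 : s ≠ 0 := by
    rintro rfl
    apply hp2
    rw [← hs]
    ring
  have h2m : (2 : ZMod p) ^ m = 1 := by
    rw [← hs, ← pow_mul, show 2 * m = p - 1 by omega]
    exact ZMod.pow_card_sub_one_eq_one hs0
  have h := landen m (s - 1)
  have e1 : ∑ j ∈ range (m + 1), (m.choose j : ZMod p) * ((2 * j).choose j : ZMod p) *
      (-(s - 1)) ^ j * ((1 + (s - 1)) ^ 2) ^ (m - j) = AA m (2 * (s - 1)) := by
    unfold AA
    refine Finset.sum_congr rfl fun j hj => ?_
    rw [Finset.mem_range] at hj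
    rw [central_mod hm j (by omega), show (1 + (s - 1)) ^ 2 = 2 by rw [← hs]; ring]
    have h3 : (2 : ZMod p) ^ j * 2 ^ (m - j) = 1 := by
      rw [← pow_add, show j + (m - j) = m by omega, h2m]
    have h4 : (-4 : ZMod p) ^ j * (-(s - 1)) ^ j = 2 ^ j * (2 * (s - 1)) ^ j := by
      rw [← mul_pow, ← mul_pow]
      congr 1
      ring
    calc (m.choose j : ZMod p) * ((-4) ^ j * (m.choose j : ZMod p)) * (-(s - 1)) ^ j * 2 ^ (m - j)
        = (m.choose j : ZMod p) ^ 2 * ((-4) ^ j * (-(s - 1)) ^ j) * 2 ^ (m - j) := by ring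
      _ = (m.choose j : ZMod p) ^ 2 * (2 * (s - 1)) ^ j * (2 ^ j * 2 ^ (m - j)) := by
          rw [h4]; ring
      _ = _ := by rw [h3, mul_one]
  have e2 : ∑ j ∈ range (m + 1), ((m.choose j : ZMod p)) ^ 2 * ((s - 1) ^ 2) ^ j =
      AA m (1 - 2 * (s - 1)) := by
    unfold AA
    rw [show (s - 1) ^ 2 = 1 - 2 * (s - 1) by linear_combination hs]
  rw [e1, e2] at h
  have h5 := AA_symm (p := p) hm (2 * (s - 1))
  rw [← h, (Nat.odd_iff.2 hodd).neg_one_pow] at h5
  have h6 : 2 * AA m (2 * (s - 1)) = 0 := by linear_combination h5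
  rcases mul_eq_zero.1 h6 with h7 | h7
  · exact absurd h7 hp2
  · exact h7

end ModP

section ModP2

variable {p m : ℕ} [Fact p.Prime]

/-- reduction modulo `p` -/
noncomputable def red (p : ℕ) : ZMod (p ^ 2) →+* ZMod p :=
  ZMod.castHom (dvd_pow_self p two_ne_zero) (ZMod p)

theorem mul_eq_zero_of_red (a b : ZMod (p ^ 2)) (ha : red p a = 0) (hb : red p b = 0) :
    a * b = 0 := by
  haveI : NeZero (p ^ 2) := ⟨pow_ne_zero 2 (Fact.out : p.Prime).ne_zero⟩
  have h : ∀ c : ZMod (p ^ 2), red p c = 0 → p ∣ c.val := by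
    intro c hc
    rw [← ZMod.natCast_zmod_val c, map_natCast, ZMod.natCast_eq_zero_iff] at hc
    exact hc
  obtain ⟨x, hx⟩ := h a ha
  obtain ⟨y, hy⟩ := h b hb
  rw [← ZMod.natCast_zmod_val a, ← ZMod.natCast_zmod_val b, ← Nat.cast_mul,
    ZMod.natCast_eq_zero_iff, hx, hy]
  exact ⟨x * y, by ring⟩

theorem isUnit_cast {n : ℕ} (h : ¬ p ∣ n) : IsUnit (n : ZMod (p ^ 2)) := by
  rw [ZMod.isUnit_iff_coprime]
  exact Nat.Coprime.pow_right 2 ((Nat.Prime.coprime_iff_not_dvd (Fact.out : p.Prime)).2 h).symm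

omit [Fact p.Prime] in
theorem sq_cast (hm : p = 2 * m + 1) : (2 * (m : ZMod (p ^ 2)) + 1) ^ 2 = 0 := by
  have : (((2 * m + 1) ^ 2 : ℕ) : ZMod (p ^ 2)) = 0 := by
    rw [← hm]
    exact ZMod.natCast_self (p ^ 2)
  push_cast at this
  exact this

theorem DU (hm : p = 2 * m + 1) (k : ℕ) (hk : k ≤ m) :
    (W m 0 : ZMod (p ^ 2)) * (((2 * m).choose k : ZMod (p ^ 2)) *
      ((2 * k).choose k : ZMod (p ^ 2)) ^ 2) =
      16 ^ k * ((m.choose k : ZMod (p ^ 2)) * (W m k : ZMod (p ^ 2))) := by
  induction k with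
  | zero => simp
  | succ k ih =>
    have h := ih (by omega)
    have hp2 := sq_cast (p := p) hm
    have h1 : ((2 * m).choose (k + 1) : ZMod (p ^ 2)) * (k + 1) =
        ((2 * m).choose k : ZMod (p ^ 2)) * (2 * m - k) := by
      have := Nat.choose_succ_right_eq (2 * m) k
      have h2 := congrArg (Nat.cast : ℕ → ZMod (p ^ 2)) this
      push_cast [Nat.cast_sub (show k ≤ 2 * m by omega)] at h2
      exact h2
    have h2 : ((k : ZMod (p ^ 2)) + 1) * ((2 * (k + 1)).choose (k + 1) : ZMod (p ^ 2)) =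
        2 * (2 * k + 1) * ((2 * k).choose k : ZMod (p ^ 2)) := by
      have := Nat.succ_mul_centralBinom_succ k
      rw [Nat.centralBinom, Nat.centralBinom] at this
      have h2 := congrArg (Nat.cast : ℕ → ZMod (p ^ 2)) this
      push_cast at h2
      exact h2
    have h3 : (m.choose (k + 1) : ZMod (p ^ 2)) * (k + 1) =
        (m.choose k : ZMod (p ^ 2)) * (m - k) := by
      have := Nat.choose_succ_right_eq m k
      have h2 := congrArg (Nat.cast : ℕ → ZMod (p ^ 2)) this
      push_cast [Nat.cast_sub (show k ≤ m by omega)] at h2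
      exact h2
    have h4 : (W m (k + 1) : ZMod (p ^ 2)) * (2 * m + 2 + k) = W m k * (m + 1 + k) := by
      have := congrArg (Nat.cast : ℕ → ZMod (p ^ 2)) (W_succ m k (by omega))
      push_cast at this
      exact this
    have hu1 : IsUnit ((k : ZMod (p ^ 2)) + 1) := by
      have := isUnit_cast (p := p) (n := k + 1) (fun hd => by
        have := Nat.le_of_dvd (by omega) hd
        omega)
      exact_mod_cast this
    have hu2 : IsUnit (2 * (m : ZMod (p ^ 2)) + 2 + k) := by
      have := isUnit_cast (p := p) (n := 2 * m + 2 + k) (fun hd => by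
        have h5 : p ∣ k + 1 := by
          have h6 : 2 * m + 2 + k = p + (k + 1) := by omega
          rw [h6] at hd
          exact (Nat.dvd_add_right (dvd_refl p)).1 hd
        have := Nat.le_of_dvd (by omega) h5
        omega)
      exact_mod_cast this
    have hu : IsUnit (((k : ZMod (p ^ 2)) + 1) ^ 3 * (2 * (m : ZMod (p ^ 2)) + 2 + k)) :=
      (hu1.pow 3).mul hu2
    rw [← sub_eq_zero]
    refine (hu.mul_right_eq_zero).1 ?_
    set b := ((2 * m).choose k : ZMod (p ^ 2)) with hb
    set b' := ((2 * m).choose (k + 1) : ZMod (p ^ 2)) with hb'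
    set c := ((2 * k).choose k : ZMod (p ^ 2)) with hc
    set c' := ((2 * (k + 1)).choose (k + 1) : ZMod (p ^ 2)) with hc'
    set e := (m.choose k : ZMod (p ^ 2)) with he
    set e' := (m.choose (k + 1) : ZMod (p ^ 2)) with he'
    set w := (W m k : ZMod (p ^ 2)) with hw
    set w' := (W m (k + 1) : ZMod (p ^ 2)) with hw'
    set D := (W m 0 : ZMod (p ^ 2)) with hD
    set M := (m : ZMod (p ^ 2)) with hM
    set K := (k : ZMod (p ^ 2)) with hK
    have g1 : (K + 1) ^ 3 * (b' * c' ^ 2) = b * (2 * M - K) * (2 * (2 * K + 1) * c) ^ 2 := by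
      calc (K + 1) ^ 3 * (b' * c' ^ 2) = (b' * (K + 1)) * ((K + 1) * c') ^ 2 := by ring
        _ = _ := by rw [h1, h2]
    have g2 : (K + 1) * (2 * M + 2 + K) * (e' * w') = e * (M - K) * (w * (M + 1 + K)) := by
      calc (K + 1) * (2 * M + 2 + K) * (e' * w') = (e' * (K + 1)) * (w' * (2 * M + 2 + K)) := by
            ring
        _ = _ := by rw [h3, h4]
    calc (K + 1) ^ 3 * (2 * M + 2 + K) * (D * (b' * c' ^ 2) - 16 ^ (k + 1) * (e' * w'))
        = (2 * M + 2 + K) * D * ((K + 1) ^ 3 * (b' * c' ^ 2)) -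
          (K + 1) ^ 2 * 16 ^ (k + 1) * ((K + 1) * (2 * M + 2 + K) * (e' * w')) := by ring
      _ = (2 * M + 2 + K) * (2 * M - K) * (4 * (2 * K + 1) ^ 2) * (D * (b * c ^ 2)) -
          (K + 1) ^ 2 * 16 * (M - K) * (M + 1 + K) * (16 ^ k * (e * w)) := by
            rw [g1, g2, pow_succ (16 : ZMod (p ^ 2)) k]; ring
      _ = 0 := by
            rw [h]
            linear_combination (16 ^ k * (e * w)) * 4 * ((2 * K + 1) ^ 2 - (K + 1) ^ 2) * hp2

/-- `∑_{k < p} C(2m, k) C(2k, k)^2 x^k` -/
def FF (p m : ℕ) (x : ZMod (p ^ 2)) : ZMod (p ^ 2) :=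
  ∑ k ∈ range p, ((2 * m).choose k : ZMod (p ^ 2)) * ((2 * k).choose k : ZMod (p ^ 2)) ^ 2 * x ^ k

theorem central_sq_zero (hm : p = 2 * m + 1) (k : ℕ) (h1 : m < k) (h2 : k < p) :
    ((2 * k).choose k : ZMod (p ^ 2)) ^ 2 = 0 := by
  have h : p ∣ (2 * k).choose k := by
    have := Nat.Prime.dvd_choose_add (Fact.out : p.Prime) h2 h2 (by omega)
    rwa [← two_mul] at this
  obtain ⟨c, hc⟩ := h
  rw [← Nat.cast_pow, ZMod.natCast_eq_zero_iff, hc]
  exact ⟨c ^ 2, by ring⟩

theorem D_mul_FF (hm : p = 2 * m + 1) (x : ZMod (p ^ 2)) :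
    (W m 0 : ZMod (p ^ 2)) * FF p m x = GG m (16 * x) := by
  unfold FF GG
  have hsub : range (m + 1) ⊆ range p := Finset.range_subset_range.2 (by omega)
  rw [← Finset.sum_subset hsub, Finset.mul_sum]
  · refine Finset.sum_congr rfl fun k hk => ?_
    rw [Finset.mem_range] at hk
    have h := DU (p := p) hm k (by omega)
    rw [mul_pow]
    linear_combination x ^ k * h
  · intro k hk hk2
    rw [Finset.mem_range] at hk hk2
    rw [central_sq_zero hm k (by omega) hk]
    ring

theorem map_GG {R S : Type*} [CommRing R] [CommRing S] (f : R →+* S) (m : ℕ) (y : R) :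
    f (GG m y) = GG m (f y) := by
  unfold GG
  simp only [map_sum, map_mul, map_pow, map_natCast]

/-- the Pell numbers -/
def pell : ℕ → ℤ
  | 0 => 0
  | 1 => 1
  | n + 2 => 2 * pell (n + 1) + pell n

theorem pell_formula {R : Type*} [CommRing R] (s : R) (hs : s ^ 2 = 2) (k : ℕ) :
    2 * s * (pell k : R) = (1 + s) ^ k - (1 - s) ^ k := by
  induction k using Nat.twoStepInduction with
  | zero => simp [pell]
  | one => simp [pell]; ring
  | more k ih1 ih2 =>
    simp only [pell]
    push_cast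
    have e1 : (1 + s) ^ (k + 2) = 2 * (1 + s) ^ (k + 1) + (1 + s) ^ k := by
      rw [pow_succ, pow_succ]
      linear_combination (1 + s) ^ k * hs
    have e2 : (1 - s) ^ (k + 2) = 2 * (1 - s) ^ (k + 1) + (1 - s) ^ k := by
      rw [pow_succ, pow_succ]
      linear_combination (1 - s) ^ k * hs
    rw [e1, e2]
    linear_combination 2 * ih2 + ih1

theorem exists_sqrt_two (hp : p % 8 = 7) : ∃ s : ZMod (p ^ 2), s ^ 2 = 2 := by
  have hp2 : p ≠ 2 := by omega
  have h1 : IsSquare (2 : ZMod p) := (ZMod.exists_sq_eq_two_iff hp2).2 (Or.inr hp)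
  obtain ⟨a, ha⟩ := h1
  haveI : NeZero (p ^ 2) := ⟨pow_ne_zero 2 (Fact.out : p.Prime).ne_zero⟩
  haveI : NeZero p := ⟨(Fact.out : p.Prime).ne_zero⟩
  set A : ZMod (p ^ 2) := (a.val : ZMod (p ^ 2)) with hA
  have hredA : red p A = a := by
    rw [hA, map_natCast, ZMod.natCast_zmod_val]
  have h2 : (2 : ZMod p) ≠ 0 := by
    have := natCast_ne_zero_of_lt (p := p) (k := 2) (by omega) (by omega)
    exact_mod_cast this
  have ha0 : a ≠ 0 := by
    rintro rfl
    apply h2
    rw [ha]
    ring
  have hav : ¬ p ∣ a.val := by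
    rw [← ZMod.natCast_eq_zero_iff, ZMod.natCast_zmod_val]
    exact ha0
  have hAu : IsUnit A := isUnit_cast hav
  have h2u : IsUnit (2 : ZMod (p ^ 2)) := by
    have := isUnit_cast (p := p) (n := 2) (fun hd => by
      have := Nat.le_of_dvd (by omega) hd
      omega)
    exact_mod_cast this
  obtain ⟨B, hB⟩ := hAu.exists_right_inv
  obtain ⟨t, ht⟩ := h2u.exists_right_inv
  -- `r = 2 / A²`
  set r : ZMod (p ^ 2) := 2 * B ^ 2 with hr
  have hr1 : red p (r - 1) = 0 := by
    have hB2 : a * red p B = 1 := by rw [← hredA, ← map_mul, hB, map_one]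
    rw [map_sub, map_one, hr, map_mul, map_pow, map_ofNat, ha]
    linear_combination (a * red p B + 1) * hB2
  have hr2 : (r - 1) * (r - 1) = 0 := mul_eq_zero_of_red _ _ hr1 hr1
  refine ⟨A * (1 + (r - 1) * t), ?_⟩
  have e1 : (1 + (r - 1) * t) ^ 2 = r := by
    linear_combination (r - 1) * ht + t ^ 2 * hr2
  rw [mul_pow, e1, hr]
  linear_combination 2 * (A * B + 1) * hB

/-- the main congruence, for integers -/
theorem main_int (hp : p % 8 = 7) :
    ((p ^ 2 : ℕ) : ℤ) ∣ ∑ k ∈ range p, ((p - 1).choose k : ℤ) * pell k * 8 ^ (p - 1 - k) *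
      ((2 * k).choose k : ℤ) ^ 2 := by
  obtain ⟨m, hm⟩ : ∃ m, p = 2 * m + 1 := ⟨p / 2, by omega⟩
  have hodd : m % 2 = 1 := by omega
  obtain ⟨s, hs⟩ := exists_sqrt_two hp
  have hu : ∀ n : ℕ, 0 < n → n < p → IsUnit (n : ZMod (p ^ 2)) := fun n h0 h =>
    isUnit_cast (fun hd => by have := Nat.le_of_dvd h0 hd; omega)
  have h2u : IsUnit (2 : ZMod (p ^ 2)) := by
    have := hu 2 (by omega) (by omega)
    exact_mod_cast this
  have h8u : IsUnit (8 : ZMod (p ^ 2)) := by
    rw [show (8 : ZMod (p ^ 2)) = 2 ^ 3 by norm_num]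
    exact h2u.pow 3
  obtain ⟨e, he⟩ := h8u.exists_right_inv
  have hsu : IsUnit s := by
    apply isUnit_of_mul_isUnit_left (y := s)
    rw [← sq, hs]
    exact h2u
  have hDu : IsUnit (W m 0 : ZMod (p ^ 2)) := by
    unfold W
    simp only [Finset.range_zero, Finset.prod_empty, one_mul, Nat.Ico_zero_eq_range]
    apply isUnit_cast
    rw [(Fact.out : p.Prime).prime.dvd_finsetProd_iff]
    rintro ⟨j, hj, hd⟩
    rw [Finset.mem_range] at hj
    have h6 : 2 * m + 2 + j = p + (j + 1) := by omega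
    rw [h6] at hd
    have := Nat.le_of_dvd (by omega) ((Nat.dvd_add_right (dvd_refl p)).1 hd)
    omega
  -- the Pfaff transformation
  have hG : GG m (2 * (1 + s)) = ((1 + s) ^ 2) ^ m * GG m (2 * (1 - s)) := by
    have h := GG_pair m (2 * (1 - s)) (-(2 * (1 + s))) (by linear_combination 4 * hs)
    rw [neg_neg] at h
    rw [h]
    congr 2
    linear_combination -hs
  have hkey : (W m 0 : ZMod (p ^ 2)) * (FF p m (e * (1 + s)) - FF p m (e * (1 - s))) = 0 := by
    rw [mul_sub, D_mul_FF hm, D_mul_FF hm]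
    have e1 : (16 : ZMod (p ^ 2)) * (e * (1 + s)) = 2 * (1 + s) := by
      linear_combination 2 * (1 + s) * he
    have e2 : (16 : ZMod (p ^ 2)) * (e * (1 - s)) = 2 * (1 - s) := by
      linear_combination 2 * (1 - s) * he
    rw [e1, e2, hG, ← sub_one_mul]
    apply mul_eq_zero_of_red
    · have hs1 : red p (1 + s) ≠ 0 := by
        intro h0
        have h1 : red p (1 + s) * red p (1 - s) = -1 := by
          rw [← map_mul, show (1 + s) * (1 - s) = -1 by linear_combination -hs, map_neg, map_one]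
        rw [h0, zero_mul] at h1
        exact one_ne_zero (by linear_combination h1 : (1 : ZMod p) = 0)
      rw [map_sub, map_one, ← pow_mul, map_pow, show 2 * m = p - 1 by omega,
        ZMod.pow_card_sub_one_eq_one hs1, sub_self]
    · rw [map_GG, GG_mod hm]
      have hsr : (red p s) ^ 2 = 2 := by rw [← map_pow, hs, map_ofNat]
      have h0 := AA_zero (p := p) hm hodd (red p s) hsr
      have e3 : -red p (2 * (1 - s)) = 2 * (red p s - 1) := by
        rw [map_mul, map_sub, map_one, map_ofNat]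
        ring
      rw [e3, h0, mul_zero]
  have hF : FF p m (e * (1 + s)) - FF p m (e * (1 - s)) = 0 :=
    (hDu.mul_right_eq_zero).1 hkey
  have hN : 2 * s * ((∑ k ∈ range p, ((p - 1).choose k : ℤ) * pell k * 8 ^ (p - 1 - k) *
      ((2 * k).choose k : ℤ) ^ 2 : ℤ) : ZMod (p ^ 2)) = 8 ^ (p - 1) *
      (FF p m (e * (1 + s)) - FF p m (e * (1 - s))) := by
    unfold FF
    rw [← Finset.sum_sub_distrib, Finset.mul_sum]
    push_cast
    rw [Finset.mul_sum]
    refine Finset.sum_congr rfl fun k hk => ?_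
    rw [Finset.mem_range] at hk
    have h8 : (8 : ZMod (p ^ 2)) ^ (p - 1) * e ^ k = 8 ^ (p - 1 - k) := by
      conv_lhs => rw [show p - 1 = (p - 1 - k) + k by omega, pow_add, mul_assoc, ← mul_pow, he,
        one_pow, mul_one]
    have hpk := pell_formula s hs k
    rw [← h8, show p - 1 = 2 * m by omega, mul_pow, mul_pow]
    linear_combination (8 : ZMod (p ^ 2)) ^ (2 * m) * e ^ k * ((2 * m).choose k : ZMod (p ^ 2)) *
      ((2 * k).choose k : ZMod (p ^ 2)) ^ 2 * hpk
  rw [hF, mul_zero] at hN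
  have hN0 := ((h2u.mul hsu).mul_right_eq_zero).1 hN
  rwa [ZMod.intCast_zmod_eq_zero_iff_dvd] at hN0

end ModP2

end Pool.Agent.T2H21.PL
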